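import Pool.Agent.H85.Nil

set_option autoImplicit false

namespace Pool.Agent.Results.MP_53eea8_gt.Nilmanifold

open Pool.Agent.H85.SemiRiemDefs
open scoped Manifold ContDiff

/-- A closed 3-manifold with a complete indefinite metric whose unbounded geodesic orbits form a
set of positive (indeed full) measure in the tangent bundle. -/
theorem result : ∃ (M : Type) (_ : TopologicalSpace M) (_ : ChartedSpace (Euc 3) M)
    (_ : IsManifold 𝓘(ℝ, Euc 3) ∞ M) (_ : CompactSpace M) (_ : T2Space M) (g : Bilin (Euc 3) M),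
    IsIndefiniteMetric g ∧ IsComplete g ∧ ¬ IsNull (UnboundedOrbits g) ∧
      IsNull (UnboundedOrbits g)ᶜ :=
  ⟨Pool.Agent.H85.Nil.N, inferInstance, inferInstance, inferInstance, inferInstance, inferInstance,
    Pool.Agent.H85.Nil.gN, Pool.Agent.H85.Nil.gN_metric, Pool.Agent.H85.Nil.gN_complete,
    Pool.Agent.H85.Nil.not_null_unbounded, Pool.Agent.H85.Nil.null_bounded⟩

end Pool.Agent.Results.MP_53eea8_gt.Nilmanifold
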